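import Pool.Agent.Q240.PR.Stm

set_option autoImplicit false

/-!
# Project PR: the statements with the weight of the pole (these contain `S_Tr1`, `S_TrX`, `S_Key`, `S_Rig`, `S_Bnd`)
-/

open Polynomial Filter Topology Finset MeasureTheory
open Pool.Agent.H24R2.JP (XX)

namespace Pool.Agent.Q240.PR

/-- the pole term of Weil's form -/
noncomputable def Pl (f : ℝ → ℂ) : ℝ := 2 * (Y23.TT f (1 / 2) * (starRingEnd ℂ) (Y23.TT f (-(1 / 2)))).re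

/-- the pole term of the limit functions `XX * TT χ` -/
noncomputable def PlX (χ : ℝ → ℂ) : ℝ :=
  2 * (XX (1 / 2) * Y23.TT χ (1 / 2) * (starRingEnd ℂ) (XX (-(1 / 2)) * Y23.TT χ (-(1 / 2)))).re

/-- **Tr1w**: `S_Tr1` with convergence of `β a w` for all complex `w` (the same proof: `AK L p w = ∫_{-p}^{p} exp (2 π L cos φ) exp (- I w φ / 2) dφ` up to the sign, and the normalised measures
`exp (2 π L cos φ) dφ` concentrate at `0`). `S_Tr1` follows at once. -/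
def S_Tr1w : Prop := ∀ ε : ℝ, 0 < ε → ∃ h p : ℝ, 0 < h ∧ 0 < p ∧ p < Real.pi / 2 ∧ ∀ χ : ℝ → ℂ, Sm h χ →
  ∃ (T : ℝ → ℝ → ℂ) (β D : ℝ → ℂ → ℂ) (b : ℝ → ℝ),
    (∀ᶠ a : ℝ in atTop, Y23.Hd a (T a) ∧ Differentiable ℂ (β a) ∧ Differentiable ℂ (D a) ∧
      (∀ w, Y23.TT (T a) w = b a * β a w * Y23.TT χ w * XX w + D a w) ∧
      (∀ w : ℂ, |w.re| ≤ 1 → ‖D a w‖ ≤ Real.exp (ε * Real.exp (2 * a)) / (1 + ‖w‖) ^ 6) ∧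
      Real.exp ((2 * Real.pi - ε) * Real.exp (2 * a)) ≤ b a ∧ b a ≤ Real.exp ((2 * Real.pi + ε) * Real.exp (2 * a)) ∧
      ∀ v : ℝ, ‖β a (v * Complex.I)‖ ≤ Real.exp (p * |v| / 2)) ∧
    ∀ w : ℂ, Tendsto (fun a => β a w) atTop (𝓝 1)

/-- **TrXw**: `S_TrX` with convergence of the transforms at `± 1/2` (the same proof with `S_Tr1w`: `TT F w - XX w TT χ w = (β w - 1) TT χ w XX w + (D w - TT R w) / b`, `‖D w - TT R w‖ / b ≤ exp (4 ε X) / b`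
in the strip). `S_TrX` follows at once. -/
def S_TrXw : Prop := ∀ c : ℝ, c < 4 * Real.pi → ∃ h C : ℝ, 0 < h ∧ 0 < C ∧ ∀ χ : ℝ → ℂ, Sm h χ → ∃ F : ℝ × ℕ → ℝ → ℂ,
  (∀ᶠ p in Lx C, Y23.G.F.Hn p.1 (p.2 : ℕ∞) (F p) ∧ |Y23.QQ (F p)| ≤ Real.exp (-(c * Real.exp (2 * p.1))) ∧
    Integrable fun v : ℝ => (1 + v ^ 2) * ‖Y23.TT (F p) (v * Complex.I) - XX (v * Complex.I) * Y23.TT χ (v * Complex.I)‖ ^ 2) ∧
  Tendsto (fun p => ∫ v : ℝ, (1 + v ^ 2) * ‖Y23.TT (F p) (v * Complex.I) - XX (v * Complex.I) * Y23.TT χ (v * Complex.I)‖ ^ 2) (Lx C) (𝓝 0) ∧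
  Tendsto (fun p => Y23.TT (F p) (1 / 2)) (Lx C) (𝓝 (XX (1 / 2) * Y23.TT χ (1 / 2))) ∧
  Tendsto (fun p => Y23.TT (F p) (-(1 / 2))) (Lx C) (𝓝 (XX (-(1 / 2)) * Y23.TT χ (-(1 / 2))))

/-- **DetP**: limit functions which are small on the line and not at `± 1/2`. Uses `S_Poly`.
Proof. `XX (± 1/2) = 4`. Let `ω v = ‖XX (v I)‖² (1 + v²)² (v² + 1/4)²` (exponential decay: `Z.XX_decay`). By `S_Poly` (applied to compactly supported functions close to `1 / (v² + 1/4)` in `L²(ω)`) there is a real polynomial `Q`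
with `∫ ω |Q - 1 / (v² + 1/4)|² ≤ ε'`; `P0 = 1 - (v² + 1/4) Q` satisfies `P0 (± I/2) = 1` and `∫ ‖XX‖² (1 + v²)² P0² ≤ ε'`. `P = P0` if `μ > 0` and `P = 2 v P0` if `μ < 0`: `P (I/2) conj (P (-I/2)) = ± 1`. Let
`χ = s ∑ p_k I^k (d/dx)^k ψ_σ` as in `S_Det` (`ψ` even, smooth, integral `1`), so that `TT χ w = s P (- I w) TT ψ (σ w)`; `s² |μ| 2 · 16 = 2`; `σ → 0`: `TT ψ (± σ / 2) → 1`, and the integral is at most `s² ∫ ‖XX‖² (1 + v²) P² `. -/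
def S_DetP : Prop := ∀ h ε μ : ℝ, 0 < h → 0 < ε → μ ≠ 0 → ∃ χ : ℝ → ℂ, Sm h χ ∧
  ∫ v : ℝ, (1 + v ^ 2) * ‖XX (v * Complex.I) * Y23.TT χ (v * Complex.I)‖ ^ 2 ≤ ε ∧ 1 ≤ μ * PlX χ

/-- **KeyP**: uniform detection on a compact family, with the pole. Uses `S_TrXw`, `S_Det`, `S_DetP`. (The proof of `S_Key`; for `q0` with `μ q0 ≠ 0` take `χ` from `S_DetP` with `ε B ≤ 1/2`; `Pl F → PlX χ`.) The bound `N2 f ≤ 1`: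
`2 π N2 F = ∫ ‖TT F‖²` is bounded (it converges); multiply `f` (finitely many `χ`) by a small constant and make `c0` smaller. `S_Key` is the case `μ = 0`. -/
def S_KeyP : Prop := ∀ c : ℝ, c < 4 * Real.pi → ∃ C : ℝ, 0 < C ∧ ∀ (Q : Type) [TopologicalSpace Q] [CompactSpace Q] (T : Q → ℝ → ℝ) (μ : Q → ℝ),
  Continuous (fun x : Q × ℝ => T x.1 x.2) → Continuous μ → (∃ B : ℝ, ∀ q v, |T q v| ≤ B * (1 + v ^ 2)) → (∀ q, μ q ≠ 0 ∨ ∃ v, 0 < T q v) →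
    ∃ c0 : ℝ, 0 < c0 ∧ ∀ᶠ p in Lx C, ∀ q : Q, ∃ f : ℝ → ℂ, Y23.G.F.Hn p.1 (p.2 : ℕ∞) f ∧ Y23.N2 f ≤ 1 ∧ |Y23.QQ f| ≤ Real.exp (-(c * Real.exp (2 * p.1))) ∧
      c0 ≤ (∫ v : ℝ, ‖Y23.TT f (v * Complex.I)‖ ^ 2 * T q v) + μ q * Pl f

/-- the condition of positivity, up to `δ * N2 f`, for the form with the additional terms `- 2 ∑ η_t Re ∫ f (x + t) conj (f x) dx` and the weight `1 - κ` of the pole -/
def PosP (a : ℝ) (ν : ℕ∞) (S : Finset ℝ) (η : ℝ → ℝ) (κ δ : ℝ) : Prop := ∀ f : ℝ → ℂ, Y23.G.F.Hn a ν f →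
  2 * ∑ t ∈ S, η t * (∫ x : ℝ, f (x + t) * (starRingEnd ℂ) (f x)).re + κ * Pl f ≤ Y23.QQ f + δ * Y23.N2 f

/-- **RigP**: finitely many weights and the pole. Uses `S_KeyP`, `S_PosC`, `S_Par`.
Proof. `Q` = the unit sphere of the norm `max (|κ|, |η_t|)` in `ℝ × (S → ℝ)`, `T u v = ∑ u_t cos (t v)`, `μ = π κ` (`S_PosC` if `κ = 0`); `c' = (c + 4 π) / 2`, `C`, `c0` from `S_KeyP` for `c'`. If `m = max (|κ|, |η_t|) > 0`: for `f` from `S_KeyP`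
for `(κ, η) / m`: `m c0 ≤ ∫ ‖TT f‖² ∑ η_t cos (t v) + π κ Pl f = 2 π ∑ η_t Re ∫ f (x + t) conj f + π κ Pl f ≤ π (QQ f + δ N2 f) ≤ π (exp (- c' X) + δ)` (`S_Par`). So `K = π / c0`, and `K exp (- c' X) ≤ exp (- c X)` for large `a`. For
`ν ≥ n = ⌈C a exp (2 a)⌉₊` use `Hn a n ⊆ Hn a ν`. -/
def S_RigP : Prop := ∀ c : ℝ, c < 4 * Real.pi → ∃ C : ℝ, 0 < C ∧ ∀ S : Finset ℝ, (∀ t ∈ S, 0 < t) → ∃ K A : ℝ, ∀ (a : ℝ) (ν : ℕ∞), A ≤ a →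
  ((⌈C * a * Real.exp (2 * a)⌉₊ : ℕ) : ℕ∞) ≤ ν → ∀ (η : ℝ → ℝ) (κ δ : ℝ), 0 ≤ δ → PosP a ν S η κ δ →
    |κ| ≤ K * δ + Real.exp (-(c * Real.exp (2 * a))) ∧ ∀ t ∈ S, |η t| ≤ K * δ + Real.exp (-(c * Real.exp (2 * a)))

/-- **BndP**: all weights, bounded total change, and the pole. Uses `S_TrXw`, `S_DetP`, `S_Poly`, `S_Ker`, `S_Par`.
Proof. First the pole: for `f` of degree `ν`: `∫ ‖TT f‖² T + π κ Pl f ≤ π (QQ f + δ N2 f)`, `|T| ≤ B`. Let `χ` be from `S_DetP` for `μ = 1` and `ε'`, `F` from `S_TrXw`: `Pl F ≥ 1/2` and `∫ ‖TT F‖² = 2 π N2 F ≤ 2 ε'` for large `a`, so `κ ≤ 2 (QQ F + (2 B + δ) ε')` if `κ > 0`;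
`μ = -1` for `κ < 0`. So `|κ| ≤ ε` for large `a`, uniformly. Then `κ Pl F → 0` for every `χ`, and the proof of `S_Bnd` goes through (`δ N2 F` is small if `δ ≤ δ0`; finitely many `χ` are used). -/
def S_BndP : Prop := ∃ C : ℝ, 0 < C ∧ ∀ (B t0 : ℝ) (g : ℝ → ℝ) (ε : ℝ), 0 < t0 → (∀ k : ℕ, ContDiff ℝ k g) → HasCompactSupport g → (∀ x ≤ 0, g x = 0) → 0 < ε →
  ∃ A δ : ℝ, 0 < δ ∧ ∀ (a : ℝ) (ν : ℕ∞), A ≤ a → ((⌈C * a * Real.exp (2 * a)⌉₊ : ℕ) : ℕ∞) ≤ ν → ∀ (S : Finset ℝ) (η : ℝ → ℝ) (κ : ℝ), (∀ t ∈ S, t0 ≤ t) → ∑ t ∈ S, |η t| ≤ B →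
    PosP a ν S η κ δ → |κ| ≤ ε ∧ |∑ t ∈ S, η t * g t| ≤ ε

end Pool.Agent.Q240.PR
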