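import Pool.Agent.Q240.PR.Stm

set_option autoImplicit false

/-!
# Project PR: a moved prime
-/

open Polynomial Filter Topology Finset MeasureTheory
open Pool.Agent.H24R2.JP (XX)

namespace Pool.Agent.Q240.PR

/-- the contribution of `p` and its powers to Weil's form: `∑_{j ≥ 1} log p p^(-j/2) Re ∫ f (x + j log p) conj (f x) dx` (for `Fa a f` the terms with `j log p ≥ 2 a` vanish) -/
noncomputable def Pw (p : ℝ) (f : ℝ → ℂ) : ℝ :=
  ∑' j : ℕ, Real.log p * p ^ (-((j : ℝ) + 1) / 2) * (∫ x : ℝ, f (x + ((j : ℝ) + 1) * Real.log p) * (starRingEnd ℂ) (f x)).re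

/-- the corresponding multiplier `∑_{j ≥ 1} log p p^(-j/2) cos (j v log p)` -/
noncomputable def Ep (p v : ℝ) : ℝ := ∑' j : ℕ, Real.log p * p ^ (-((j : ℝ) + 1) / 2) * Real.cos (((j : ℝ) + 1) * Real.log p * v)

/-- **PwE**: the contribution in terms of the transform (`S_Par`, dominated convergence: `∑ log p p^(-j/2) < ∞` for `p > 1`, `‖TT f (v I)‖²` is integrable). -/
def S_PwE : Prop := ∀ (a p : ℝ) (f : ℝ → ℂ), 0 < a → 1 < p → Y23.Fa a f → 2 * Real.pi * Pw p f = ∫ v : ℝ, ‖Y23.TT f (v * Complex.I)‖ ^ 2 * Ep p v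

/-- **MovF**: the difference quotients of the multiplier form two compact families. Uses `S_Ker`.
Proof. `∂_q E_q(v) = ∑_j (d/dq)(log q q^(-j/2)) cos (j v log q) - log q q^(-j/2) (j v / q) sin (j v log q)` (termwise; uniform convergence on compact sets of `(1, ∞) × ℝ`), continuous in `(q, v)`, modulus
`≤ B (1 + |v|)` for `q ∈ [q0, q1]`. Let `T q v = ∫_0^1 (∂E) (p + s (q - p)) v ds`: jointly continuous, `(q - p) T q v = E_q v - E_p v`. Positivity: `K` from `S_Ker` for `δ = log q0`; `∫ K T_q = 0` (all frequencies are `≥ log q0`). If `T_q ≤ 0` everywhere,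
then `T_q = 0` almost everywhere, so everywhere; the same for `- T_q`. Case `q ≠ p`: `E_q = E_p`; let `s = log (min p q)` and `K'` from `S_Ker` with `δ'` smaller than `s` and than the distance of `s` to all other frequencies `j log p`, `j log q`: `∫ K' cos (s v) E = log m m^(-1/2) / 2 ∫ K' ≠ 0` for
the smaller number `m`, and `0` for the other. Case `q = p`: `∂E_p(v) = E1(v) - v E2(v)` with functions `E1`, `E2` of period `2 π / log p`, so `E2 = 0` (take `v + 2 π k / log p`, `k → ∞`), but `∫ K'(v) sin (v log p) E2(v)` or the Fourier coefficient over a period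
shows that the coefficient `log p p^(-1/2) / p` of `sin (v log p)` vanishes, a contradiction. -/
def S_MovF : Prop := ∀ p q0 q1 : ℝ, 1 < q0 → q0 ≤ p → p ≤ q1 → ∃ T : ℝ → ℝ → ℝ,
  ContinuousOn (fun x : ℝ × ℝ => T x.1 x.2) (Set.Icc q0 q1 ×ˢ Set.univ) ∧ (∃ B : ℝ, ∀ q ∈ Set.Icc q0 q1, ∀ v, |T q v| ≤ B * (1 + v ^ 2)) ∧
  (∀ q ∈ Set.Icc q0 q1, ∀ v, (q - p) * T q v = Ep q v - Ep p v) ∧ (∀ q ∈ Set.Icc q0 q1, ∃ v, 0 < T q v) ∧ ∀ q ∈ Set.Icc q0 q1, ∃ v, T q v < 0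

/-- the condition of positivity for the form in which `p` is replaced by `q` -/
def PosM (a : ℝ) (ν : ℕ∞) (p q : ℝ) : Prop := ∀ f : ℝ → ℂ, Y23.G.F.Hn a ν f → 2 * (Pw q f - Pw p f) ≤ Y23.QQ f

/-- **Mov**: a moved prime. Uses `S_Key`, `S_MovF`, `S_PwE`.
Proof. `S_Key` for the compact spaces `Q = [p, q1]` with `T q` and `Q = [q0, p]` with `- T q` (`S_MovF`), `c' = (c + 4 π) / 2`: for `q ≥ p` `π QQ f ≥ 2 π (Pw q f - Pw p f) = ∫ ‖TT f‖² (E_q - E_p) = (q - p) ∫ ‖TT f‖² T q ≥ (q - p) c0`, so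
`|q - p| ≤ (π / c0) exp (- c' X) ≤ exp (- c X)`. -/
def S_Mov : Prop := ∀ p q0 q1 c : ℝ, 1 < q0 → q0 ≤ p → p ≤ q1 → c < 4 * Real.pi → ∃ C A : ℝ, 0 < C ∧ ∀ (a : ℝ) (ν : ℕ∞), A ≤ a →
  ((⌈C * a * Real.exp (2 * a)⌉₊ : ℕ) : ℕ∞) ≤ ν → ∀ q ∈ Set.Icc q0 q1, PosM a ν p q → |q - p| ≤ Real.exp (-(c * Real.exp (2 * a)))

end Pool.Agent.Q240.PR
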